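import Mathlib

set_option autoImplicit false

/-!
# The convex hull of the Tverberg points can be smaller than the core

Let `S` be the set of the nine points
`(1,0,-2), (-2,-2,3), (2,3,-3), (-2,2,-3), (1,-3,2), (2,1,3), (2,-3,-2), (3,3,-2), (-3,2,0)` of `ℝ³`
(`9 = (3 - 1)(3 + 1) + 1`, `τ = 3`, `d = 3`).  The origin lies in `core_2(S)`: it lies in five
tetrahedra spanned by points of `S`, no two points of `S` meet all of them.  But every common point
`q` of the convex hulls of the three parts of a partition of `S` satisfies `2 z ≤ x - 1/3`: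
for each partition one of the parts lies in the half space `-x + 2z + 5 ≤ 0`, or two of the parts
lie in the half spaces `g ≤ 0`, `g' ≤ 0` of one of three pairs of affine functions with
`g + g' = m (-x + 2z) + C`, `C > 0`.
-/

namespace Pool.Agent.Results.MP_8fed12_co.CoreNotTverbergHull

/-- `D_τ(S)`: the points which lie in the convex hulls of all parts of some partition of `S` into
`τ` pairwise disjoint parts (a Radon `τ`-partition). -/
def tverbergPoints (d τ : ℕ) (S : Finset (Fin d → ℝ)) : Set (Fin d → ℝ) :=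
  {p | ∃ P : Fin τ → Finset (Fin d → ℝ), (∀ i j, i ≠ j → Disjoint (P i) (P j)) ∧
    (∀ x, x ∈ S ↔ ∃ i, x ∈ P i) ∧ ∀ i, p ∈ convexHull ℝ (P i : Set (Fin d → ℝ))}

/-- `core_σ(S)`: the intersection of the convex hulls of `S \ T` over all `T ⊆ S`, `|T| ≤ σ`. -/
def core (d σ : ℕ) (S : Finset (Fin d → ℝ)) : Set (Fin d → ℝ) :=
  {p | ∀ T : Finset (Fin d → ℝ), T ⊆ S → T.card ≤ σ →
    p ∈ convexHull ℝ ((S : Set (Fin d → ℝ)) \ (T : Set (Fin d → ℝ)))}

/-- The known inclusion. -/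
theorem hull_subset_core (d τ : ℕ) (hτ : 1 ≤ τ) (S : Finset (Fin d → ℝ)) :
    convexHull ℝ (tverbergPoints d τ S) ⊆ core d (τ - 1) S := by
  intro p hp T hT hcard
  refine convexHull_min ?_ (convex_convexHull ℝ _) hp
  rintro q ⟨P, hdis, hS, hq⟩
  -- some part does not meet `T`
  obtain ⟨i, hi⟩ : ∃ i : Fin τ, Disjoint (P i) T := by
    classical
    by_contra hcon
    push Not at hcon
    have hne : ∀ i : Fin τ, ∃ x, x ∈ P i ∧ x ∈ T := by
      intro i
      by_contra h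
      push Not at h
      exact hcon i (Finset.disjoint_left.2 h)
    choose f hf using hne
    have hinj : Function.Injective f := by
      intro i j hij
      by_contra hne
      exact (Finset.disjoint_left.1 (hdis i j hne) (hf i).1) (hij ▸ (hf j).1)
    have h1 : (Finset.univ.image f).card = τ := by
      rw [Finset.card_image_of_injective _ hinj, Finset.card_univ, Fintype.card_fin]
    have h2 : Finset.univ.image f ⊆ T := by
      intro x hx
      obtain ⟨i, _, rfl⟩ := Finset.mem_image.1 hx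
      exact (hf i).2
    have h3 := Finset.card_le_card h2
    omega
  refine convexHull_mono ?_ (hq i)
  intro x hx
  exact ⟨(hS x).2 ⟨i, hx⟩, fun hxT => Finset.disjoint_left.1 hi hx hxT⟩

/-- The nine points, with integer coordinates. -/
def pt : Fin 9 → Fin 3 → ℤ :=
  ![![1, 0, -2], ![-2, -2, 3], ![2, 3, -3], ![-2, 2, -3], ![1, -3, 2], ![2, 1, 3], ![2, -3, -2],
    ![3, 3, -2], ![-3, 2, 0]]

/-- The nine points in `ℝ³`. -/
def pr (i : Fin 9) : Fin 3 → ℝ := fun k => (pt i k : ℝ)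

theorem pr_injective : Function.Injective pr := by
  have h : Function.Injective pt := by decide
  intro i j hij
  apply h
  funext k
  have := congrFun hij k
  simpa [pr] using this

/-- The set `S`. -/
noncomputable def S : Finset (Fin 3 → ℝ) := Finset.univ.map ⟨pr, pr_injective⟩

theorem mem_S (x : Fin 3 → ℝ) : x ∈ S ↔ ∃ i, pr i = x := by
  simp [S]

theorem card_S : S.card = 9 := by simp [S]

/-! ### The origin is in the core -/

/-- The vertices of the five tetrahedra. -/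
def tet : Fin 5 → Fin 4 → Fin 9 :=
  ![![0, 1, 2, 4], ![0, 1, 2, 7], ![3, 4, 5, 7], ![3, 5, 6, 8], ![4, 6, 7, 8]]

/-- The weights. -/
def wt : Fin 5 → Fin 4 → ℕ :=
  ![![7, 15, 11, 1], ![5, 9, 5, 1], ![44, 39, 20, 3], ![1, 19, 27, 30], ![5, 2, 3, 6]]

theorem tet_zero : ∀ t : Fin 5, ∀ k : Fin 3, ∑ j : Fin 4, (wt t j : ℤ) * pt (tet t j) k = 0 := by
  decide

theorem tet_pos : ∀ t : Fin 5, 0 < ∑ j : Fin 4, wt t j := by decide

theorem tet_avoid : ∀ a b : Fin 9, ∃ t : Fin 5, ∀ j : Fin 4, tet t j ≠ a ∧ tet t j ≠ b := by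
  decide

theorem zero_mem_tet (t : Fin 5) :
    (0 : Fin 3 → ℝ) ∈ convexHull ℝ (Set.range fun j : Fin 4 => pr (tet t j)) := by
  have hW : (0 : ℝ) < ∑ j : Fin 4, (wt t j : ℝ) := by
    have := tet_pos t
    exact_mod_cast this
  have key : (Finset.univ : Finset (Fin 4)).centerMass (fun j => (wt t j : ℝ))
      (fun j => pr (tet t j)) = 0 := by
    have h0 : ∑ j : Fin 4, (wt t j : ℝ) • pr (tet t j) = 0 := by
      funext k
      have := tet_zero t k
      simp only [Finset.sum_apply, Pi.smul_apply, smul_eq_mul, pr, Pi.zero_apply]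
      exact_mod_cast this
    unfold Finset.centerMass
    rw [h0, smul_zero]
  rw [← key]
  refine Finset.centerMass_mem_convexHull _ (fun j _ => by positivity) hW ?_
  intro j _
  exact Set.mem_range_self j

theorem zero_mem_core : (0 : Fin 3 → ℝ) ∈ core 3 2 S := by
  classical
  intro T hT hcard
  -- `T` is contained in a pair of points
  obtain ⟨a, b, hab⟩ : ∃ a b : Fin 9, ∀ x ∈ T, x = pr a ∨ x = pr b := by
    obtain ⟨I, hI⟩ : ∃ I : Finset (Fin 9), I = Finset.univ.filter fun i => pr i ∈ T := ⟨_, rfl⟩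
    have hI1 : I.image pr = T := by
      ext x
      rw [Finset.mem_image, hI]
      constructor
      · rintro ⟨i, hi, rfl⟩
        exact (Finset.mem_filter.1 hi).2
      · intro hx
        obtain ⟨i, rfl⟩ := (mem_S x).1 (hT hx)
        exact ⟨i, Finset.mem_filter.2 ⟨Finset.mem_univ _, hx⟩, rfl⟩
    have hI2 : I.card ≤ 2 := by
      rw [← hI1, Finset.card_image_of_injective _ pr_injective] at hcard
      exact hcard
    have h3 : ∀ J : Finset (Fin 9), J.card ≤ 2 → ∃ a b : Fin 9, ∀ i ∈ J, i = a ∨ i = b := by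
      intro J hJ
      rcases Nat.lt_or_ge J.card 1 with h | h
      · have : J = ∅ := Finset.card_eq_zero.1 (by omega)
        exact ⟨0, 0, by simp [this]⟩
      rcases Nat.lt_or_ge J.card 2 with h' | h'
      · obtain ⟨a, ha⟩ := Finset.card_eq_one.1 (by omega : J.card = 1)
        exact ⟨a, a, by simp [ha]⟩
      · obtain ⟨a, b, _, hab⟩ := Finset.card_eq_two.1 (by omega : J.card = 2)
        exact ⟨a, b, by simp [hab]⟩
    obtain ⟨a, b, h⟩ := h3 I hI2
    refine ⟨a, b, fun x hx => ?_⟩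
    rw [← hI1] at hx
    obtain ⟨i, hi, rfl⟩ := Finset.mem_image.1 hx
    rcases h i hi with rfl | rfl
    · exact Or.inl rfl
    · exact Or.inr rfl
  obtain ⟨t, ht⟩ := tet_avoid a b
  refine convexHull_mono ?_ (zero_mem_tet t)
  rintro x ⟨j, rfl⟩
  refine ⟨(mem_S _).2 ⟨_, rfl⟩, fun hx => ?_⟩
  rcases hab _ hx with h | h
  · exact (ht j).1 (pr_injective h)
  · exact (ht j).2 (pr_injective h)

/-! ### Separation from the Tverberg points -/

/-- The affine function with integer coefficients `g 0, g 1, g 2` and constant term `g 3`. -/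
def aff (g : Fin 4 → ℤ) (x : Fin 3 → ℝ) : ℝ := g 0 * x 0 + g 1 * x 1 + g 2 * x 2 + g 3

/-- The value at an integer point. -/
def affZ (g : Fin 4 → ℤ) (x : Fin 3 → ℤ) : ℤ := g 0 * x 0 + g 1 * x 1 + g 2 * x 2 + g 3

theorem aff_pr (g : Fin 4 → ℤ) (i : Fin 9) : aff g (pr i) = (affZ g (pt i) : ℝ) := by
  simp [aff, affZ, pr]

theorem convex_aff (g : Fin 4 → ℤ) : Convex ℝ {x : Fin 3 → ℝ | aff g x ≤ 0} := by
  intro x hx y hy a b ha hb hab
  simp only [Set.mem_ofPred_eq, aff] at hx hy ⊢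
  simp only [Pi.add_apply, Pi.smul_apply, smul_eq_mul]
  have h1 := mul_le_mul_of_nonneg_left hx ha
  have h2 := mul_le_mul_of_nonneg_left hy hb
  have h3 : (g 3 : ℝ) = a * g 3 + b * g 3 := by rw [← add_mul, hab, one_mul]
  rw [mul_zero] at h1 h2
  nlinarith

theorem aff_le {g : Fin 4 → ℤ} {A : Finset (Fin 3 → ℝ)} {q : Fin 3 → ℝ}
    (hA : ∀ i, pr i ∈ A → affZ g (pt i) ≤ 0) (hAS : A ⊆ S)
    (hq : q ∈ convexHull ℝ (A : Set (Fin 3 → ℝ))) : aff g q ≤ 0 := by
  refine convexHull_min ?_ (convex_aff g) hq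
  intro x hx
  obtain ⟨i, rfl⟩ := (mem_S x).1 (hAS hx)
  change aff g (pr i) ≤ 0
  rw [aff_pr]
  exact_mod_cast hA i hx

/-- The seven affine functions. -/
def G : Fin 7 → Fin 4 → ℤ :=
  ![![-2, 0, -1, -1], ![1, 0, 3, 3], ![2, 2, 3, -2], ![-5, -2, 3, 3], ![-1, 3, 4, 2],
    ![-2, -3, 2, -1], ![-1, 0, 2, 5]]

/-- Is the `i`-th point in the half space of the `k`-th function? -/
def ok (k : Fin 7) (i : Fin 9) : Bool := decide (affZ (G k) (pt i) ≤ 0)

/-- The points which are not in all the half spaces. -/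
def six : Fin 6 → Fin 9 := ![1, 3, 4, 5, 7, 8]

theorem ok_or (k : Fin 7) (i : Fin 9) : ok k i = true ∨ ∃ j : Fin 6, six j = i := by
  revert k i
  decide

/-- Every partition of the six points into three classes is good. -/
theorem cover6 : ∀ c : Fin 6 → Fin 3,
    (∃ a : Fin 3, ∀ j, c j = a → ok 6 (six j) = true) ∨
    ∃ a b : Fin 3, ((∀ j, c j = a → ok 0 (six j) = true) ∧ ∀ j, c j = b → ok 1 (six j) = true) ∨
      ((∀ j, c j = a → ok 2 (six j) = true) ∧ ∀ j, c j = b → ok 3 (six j) = true) ∨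
      ((∀ j, c j = a → ok 4 (six j) = true) ∧ ∀ j, c j = b → ok 5 (six j) = true) := by
  decide +kernel

/-- The Tverberg points of `S` for `τ = 3` are in the half space `3 (2 z - x) + 1 ≤ 0`. -/
theorem tverberg_subset :
    tverbergPoints 3 3 S ⊆ {x | aff ![-3, 0, 6, 1] x ≤ 0} := by
  rintro q ⟨P, hdis, hS, hq⟩
  have hPS : ∀ a, P a ⊆ S := fun a x hx => (hS x).2 ⟨a, hx⟩
  have hf : ∀ i : Fin 9, ∃ a : Fin 3, pr i ∈ P a := fun i => (hS (pr i)).1 ((mem_S _).2 ⟨i, rfl⟩)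
  choose f hf using hf
  have hfa : ∀ i a, pr i ∈ P a → f i = a := by
    intro i a hia
    by_contra hne
    exact Finset.disjoint_left.1 (hdis _ _ hne) (hf i) hia
  -- passing from the six points to all points
  have lift : ∀ (k : Fin 7) (a : Fin 3), (∀ j, f (six j) = a → ok k (six j) = true) →
      aff (G k) q ≤ 0 := by
    intro k a h
    refine aff_le (A := P a) (fun i hi => ?_) (hPS a) (hq a)
    have h1 : ok k i = true := by
      rcases ok_or k i with h' | ⟨j, rfl⟩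
      · exact h'
      · exact h j (hfa _ _ hi)
    simpa [ok] using h1
  change aff ![-3, 0, 6, 1] q ≤ 0
  rcases cover6 (fun j => f (six j)) with ⟨a, h⟩ | ⟨a, b, h | h | h⟩
  · have h1 := lift 6 a h
    simp [aff, G] at h1 ⊢
    linarith
  · have h1 := lift 0 a h.1
    have h2 := lift 1 b h.2
    simp [aff, G] at h1 h2 ⊢
    linarith
  · have h1 := lift 2 a h.1
    have h2 := lift 3 b h.2
    simp [aff, G] at h1 h2 ⊢
    linarith
  · have h1 := lift 4 a h.1
    have h2 := lift 5 b h.2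
    simp [aff, G] at h1 h2 ⊢
    linarith

theorem zero_notMem_hull : (0 : Fin 3 → ℝ) ∉ convexHull ℝ (tverbergPoints 3 3 S) := by
  intro h
  have h1 := convexHull_min tverberg_subset (convex_aff _) h
  simp [aff] at h1
  linarith

/-! ### General position -/

/-- The determinant of the differences of four of the points. -/
def dt (a b c d : Fin 9) : ℤ :=
  (pt b 0 - pt a 0) * ((pt c 1 - pt a 1) * (pt d 2 - pt a 2) -
      (pt c 2 - pt a 2) * (pt d 1 - pt a 1)) -
    (pt b 1 - pt a 1) * ((pt c 0 - pt a 0) * (pt d 2 - pt a 2) -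
      (pt c 2 - pt a 2) * (pt d 0 - pt a 0)) +
    (pt b 2 - pt a 2) * ((pt c 0 - pt a 0) * (pt d 1 - pt a 1) -
      (pt c 1 - pt a 1) * (pt d 0 - pt a 0))

theorem dt_ne : ∀ a b c d : Fin 9, a < b → b < c → c < d → dt a b c d ≠ 0 := by
  decide +kernel

/-- No plane contains four of the nine points. -/
theorem general (n : Fin 3 → ℝ) (c : ℝ) (hn : n ≠ 0) :
    {x : Fin 3 → ℝ | x ∈ S ∧ n 0 * x 0 + n 1 * x 1 + n 2 * x 2 = c}.ncard ≤ 3 := by
  classical
  by_contra hcon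
  push Not at hcon
  set I : Finset (Fin 9) :=
    Finset.univ.filter fun i => n 0 * pr i 0 + n 1 * pr i 1 + n 2 * pr i 2 = c with hI
  have h1 : {x : Fin 3 → ℝ | x ∈ S ∧ n 0 * x 0 + n 1 * x 1 + n 2 * x 2 = c} =
      ((I.image pr : Finset (Fin 3 → ℝ)) : Set (Fin 3 → ℝ)) := by
    ext x
    simp only [Set.mem_ofPred_eq, Finset.mem_coe, Finset.mem_image, mem_S, hI, Finset.mem_filter,
      Finset.mem_univ, true_and]
    constructor
    · rintro ⟨⟨i, rfl⟩, h⟩
      exact ⟨i, h, rfl⟩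
    · rintro ⟨i, h, rfl⟩
      exact ⟨⟨i, rfl⟩, h⟩
  rw [h1, Set.ncard_coe_finset, Finset.card_image_of_injective _ pr_injective] at hcon
  obtain ⟨J, hJI, hJ⟩ := Finset.exists_subset_card_eq (by omega : 4 ≤ I.card)
  have hmem : ∀ j : Fin 4, n 0 * pr (J.orderEmbOfFin hJ j) 0 + n 1 * pr (J.orderEmbOfFin hJ j) 1 +
      n 2 * pr (J.orderEmbOfFin hJ j) 2 = c := by
    intro j
    have := hJI (J.orderEmbOfFin_mem hJ j)
    rw [hI] at this
    exact (Finset.mem_filter.1 this).2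
  have hlt : ∀ i j : Fin 4, i < j → J.orderEmbOfFin hJ i < J.orderEmbOfFin hJ j :=
    fun i j h => (J.orderEmbOfFin hJ).strictMono h
  have hd := dt_ne _ _ _ _ (hlt 0 1 (by decide)) (hlt 1 2 (by decide)) (hlt 2 3 (by decide))
  have e0 := hmem 0
  have e1 := hmem 1
  have e2 := hmem 2
  have e3 := hmem 3
  generalize J.orderEmbOfFin hJ 0 = a at *
  generalize J.orderEmbOfFin hJ 1 = b at *
  generalize J.orderEmbOfFin hJ 2 = c' at *
  generalize J.orderEmbOfFin hJ 3 = d at *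
  have hd' : (dt a b c' d : ℝ) ≠ 0 := by exact_mod_cast hd
  simp only [pr] at e0 e1 e2 e3
  apply hn
  have f1 : n 0 * ((pt b 0 : ℝ) - pt a 0) + n 1 * ((pt b 1 : ℝ) - pt a 1) +
      n 2 * ((pt b 2 : ℝ) - pt a 2) = 0 := by linarith
  have f2 : n 0 * ((pt c' 0 : ℝ) - pt a 0) + n 1 * ((pt c' 1 : ℝ) - pt a 1) +
      n 2 * ((pt c' 2 : ℝ) - pt a 2) = 0 := by linarith
  have f3 : n 0 * ((pt d 0 : ℝ) - pt a 0) + n 1 * ((pt d 1 : ℝ) - pt a 1) +
      n 2 * ((pt d 2 : ℝ) - pt a 2) = 0 := by linarith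
  have hdd : (dt a b c' d : ℝ) =
      ((pt b 0 : ℝ) - pt a 0) * (((pt c' 1 : ℝ) - pt a 1) * ((pt d 2 : ℝ) - pt a 2) -
        ((pt c' 2 : ℝ) - pt a 2) * ((pt d 1 : ℝ) - pt a 1)) -
      ((pt b 1 : ℝ) - pt a 1) * (((pt c' 0 : ℝ) - pt a 0) * ((pt d 2 : ℝ) - pt a 2) -
        ((pt c' 2 : ℝ) - pt a 2) * ((pt d 0 : ℝ) - pt a 0)) +
      ((pt b 2 : ℝ) - pt a 2) * (((pt c' 0 : ℝ) - pt a 0) * ((pt d 1 : ℝ) - pt a 1) -
        ((pt c' 1 : ℝ) - pt a 1) * ((pt d 0 : ℝ) - pt a 0)) := by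
    unfold dt
    push_cast
    ring
  rw [hdd] at hd'
  generalize ((pt b 0 : ℝ) - pt a 0) = b0 at *
  generalize ((pt b 1 : ℝ) - pt a 1) = b1 at *
  generalize ((pt b 2 : ℝ) - pt a 2) = b2 at *
  generalize ((pt c' 0 : ℝ) - pt a 0) = c0 at *
  generalize ((pt c' 1 : ℝ) - pt a 1) = c1 at *
  generalize ((pt c' 2 : ℝ) - pt a 2) = c2 at *
  generalize ((pt d 0 : ℝ) - pt a 0) = d0 at *
  generalize ((pt d 1 : ℝ) - pt a 1) = d1 at *
  generalize ((pt d 2 : ℝ) - pt a 2) = d2 at *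
  have g0 : n 0 * (b0 * (c1 * d2 - c2 * d1) - b1 * (c0 * d2 - c2 * d0) +
      b2 * (c0 * d1 - c1 * d0)) = 0 := by
    linear_combination (c1 * d2 - c2 * d1) * f1 - (b1 * d2 - b2 * d1) * f2 +
      (b1 * c2 - b2 * c1) * f3
  have g1 : n 1 * (b0 * (c1 * d2 - c2 * d1) - b1 * (c0 * d2 - c2 * d0) +
      b2 * (c0 * d1 - c1 * d0)) = 0 := by
    linear_combination -(c0 * d2 - c2 * d0) * f1 + (b0 * d2 - b2 * d0) * f2 -
      (b0 * c2 - b2 * c0) * f3
  have g2 : n 2 * (b0 * (c1 * d2 - c2 * d1) - b1 * (c0 * d2 - c2 * d0) +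
      b2 * (c0 * d1 - c1 * d0)) = 0 := by
    linear_combination (c0 * d1 - c1 * d0) * f1 - (b0 * d1 - b1 * d0) * f2 +
      (b0 * c1 - b1 * c0) * f3
  funext k
  fin_cases k
  · exact (mul_eq_zero.1 g0).resolve_right hd'
  · exact (mul_eq_zero.1 g1).resolve_right hd'
  · exact (mul_eq_zero.1 g2).resolve_right hd'

/-- The answer to Q1 is negative, already for nine points of `ℝ³` in general position and `τ = 3`:
the convex hull of the set of the Tverberg points is a proper subset of the core. -/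
theorem result :
    (∃ S : Finset (Fin 3 → ℝ), S.card = (3 - 1) * (3 + 1) + 1 ∧
      (∀ (n : Fin 3 → ℝ) (c : ℝ), n ≠ 0 →
        {x : Fin 3 → ℝ | x ∈ S ∧ n 0 * x 0 + n 1 * x 1 + n 2 * x 2 = c}.ncard ≤ 3) ∧
      convexHull ℝ (tverbergPoints 3 3 S) ⊂ core 3 (3 - 1) S) ∧
    ¬ ∀ d τ : ℕ, 1 ≤ d → 1 ≤ τ → ∀ S : Finset (Fin d → ℝ), S.card = (τ - 1) * (d + 1) + 1 →
      convexHull ℝ (tverbergPoints d τ S) = core d (τ - 1) S := by
  refine ⟨⟨S, card_S, general, ?_⟩, fun h => ?_⟩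
  · refine Set.ssubset_iff_exists.2 ⟨hull_subset_core 3 3 (by norm_num) S, 0, zero_mem_core,
      zero_notMem_hull⟩
  · have h1 := h 3 3 (by norm_num) (by norm_num) S card_S
    exact zero_notMem_hull (h1 ▸ zero_mem_core)

end Pool.Agent.Results.MP_8fed12_co.CoreNotTverbergHull
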